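import Mathlib

set_option autoImplicit false

/-!
# MP_82a66d_co: refinement maps onto a simplex respecting a tower and an extra vertex

For every `d ≥ 3` there are a `d`-polytope `P` (the product of a triangle and a `(d-2)`-cube), a
tower `F⁰ ⊂ ⋯ ⊂ F^d = P` of faces of `P` and a vertex `V ∉ F^(d-1)` such that no refinement map of
`P` onto a `d`-simplex, piecewise affine or not, sends `V`, `F⁰`, `F¹` and `F^(d-1)` onto faces of
the simplex. So the answer to Q1 is negative in every dimension `d ≥ 4` (and also for `d = 3`).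
-/

namespace Pool.Agent.Results.MP_82a66d_co.TowerVertex

open Set

/-- `P` is a `d`-polytope: the convex hull of a finite subset of `ℝ^d`, with nonempty interior. -/
def IsPolytope {d : ℕ} (P : Set (Fin d → ℝ)) : Prop :=
  (∃ V : Set (Fin d → ℝ), V.Finite ∧ P = convexHull ℝ V) ∧ (interior P).Nonempty

/-- `F` is a face of `P`, proper or improper: `F` is empty, or `F` is the set of points of `P` at
which some linear functional attains its maximum over `P` (this is `P` itself for the zero
functional). -/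
def IsFace {d : ℕ} (P F : Set (Fin d → ℝ)) : Prop := IsExposed ℝ P F

/-- The sets `F 0, F 1, …, F d` form a tower of faces of the `d`-polytope `P`: each `F i` is an
`i`-dimensional face of `P`, `F i` is strictly contained in `F (i + 1)`, and `F d = P`. -/
structure IsTower {d : ℕ} (P : Set (Fin d → ℝ)) (F : ℕ → Set (Fin d → ℝ)) : Prop where
  face : ∀ i ≤ d, IsFace P (F i)
  nonempty : ∀ i ≤ d, (F i).Nonempty
  dim : ∀ i ≤ d, Module.finrank ℝ (vectorSpan ℝ (F i)) = i
  strict : ∀ i < d, F i ⊂ F (i + 1)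
  top : F d = P

/-- `T` is a `d`-simplex in `ℝ^d`. -/
def IsSimplex {d : ℕ} (T : Set (Fin d → ℝ)) : Prop :=
  ∃ t : Fin (d + 1) → (Fin d → ℝ), AffineIndependent ℝ t ∧ T = convexHull ℝ (range t)

/-- The homeomorphism `ψ : P → T` is a refinement map: the preimage of every face of `T` is a union
of faces of `P`. -/
def IsRefinementMap {d : ℕ} {P T : Set (Fin d → ℝ)} (ψ : P ≃ₜ T) : Prop :=
  ∀ K : Set (Fin d → ℝ), IsFace T K → ∃ 𝓕 : Set (Set (Fin d → ℝ)),
    (∀ F ∈ 𝓕, IsFace P F) ∧ {x : P | (ψ x : Fin d → ℝ) ∈ K} = {x : P | (x : Fin d → ℝ) ∈ ⋃₀ 𝓕}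

/-- The image `ψ(F)` of a subset `F` of `P`. -/
def img {d : ℕ} {P T : Set (Fin d → ℝ)} (ψ : P ≃ₜ T) (F : Set (Fin d → ℝ)) : Set (Fin d → ℝ) :=
  {y | ∃ x : P, (x : Fin d → ℝ) ∈ F ∧ (ψ x : Fin d → ℝ) = y}

/-! ### The simplex -/

section Simplex

variable {d : ℕ} {t : Fin (d + 1) → (Fin d → ℝ)}

lemma exists_basis (ht : AffineIndependent ℝ t) :
    ∃ b : AffineBasis (Fin (d + 1)) ℝ (Fin d → ℝ), (⇑b : Fin (d + 1) → (Fin d → ℝ)) = t := by
  refine ⟨⟨t, ht, ?_⟩, rfl⟩
  rw [ht.affineSpan_eq_top_iff_card_eq_finrank_add_one]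
  simp

/-- The segment between two vertices of a simplex is a face. -/
lemma edge_exposed (ht : AffineIndependent ℝ t) (i j : Fin (d + 1)) :
    IsExposed ℝ (convexHull ℝ (range t)) (segment ℝ (t i) (t j)) := by
  classical
  obtain ⟨b, rfl⟩ := exists_basis ht
  intro _
  let f : (Fin d → ℝ) →ᵃ[ℝ] ℝ := if i = j then b.coord i else b.coord i + b.coord j
  have hf1 : ∀ x ∈ convexHull ℝ (range b), f x ≤ 1 := by
    intro x hx
    rw [b.convexHull_eq_nonneg_coord] at hx
    have hs := b.sum_coord_apply_eq_one x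
    by_cases hij : i = j
    · simp only [f, hij, if_true]
      rw [← hs]
      exact Finset.single_le_sum (f := fun k => b.coord k x) (fun k _ => hx k) (Finset.mem_univ j)
    · simp only [f, hij, if_false, AffineMap.coe_add, Pi.add_apply]
      rw [← hs, ← Finset.sum_pair (f := fun k => b.coord k x) hij]
      exact Finset.sum_le_sum_of_subset_of_nonneg (Finset.subset_univ _) (fun k _ _ => hx k)
  have hf2 : ∀ x ∈ convexHull ℝ (range b), f x = 1 → x ∈ segment ℝ (b i) (b j) := by
    intro x hx h1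
    rw [b.convexHull_eq_nonneg_coord] at hx
    have hs := b.sum_coord_apply_eq_one x
    have hx' := b.linear_combination_coord_eq_self x
    by_cases hij : i = j
    · simp only [f, hij, if_true] at h1
      have hz : ∀ k, k ≠ j → b.coord k x = 0 := by
        have h2 : ∑ k ∈ Finset.univ.erase j, b.coord k x = 0 := by
          have := Finset.add_sum_erase Finset.univ (fun k => b.coord k x) (Finset.mem_univ j)
          linarith
        rw [Finset.sum_eq_zero_iff_of_nonneg (fun k _ => hx k)] at h2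
        intro k hk
        exact h2 k (Finset.mem_erase.2 ⟨hk, Finset.mem_univ _⟩)
      rw [Finset.sum_eq_single j (fun k _ hk => by rw [hz k hk, zero_smul])
        (fun h => absurd (Finset.mem_univ j) h), h1, one_smul] at hx'
      rw [hij, ← hx']
      simp
    · simp only [f, hij, if_false, AffineMap.coe_add, Pi.add_apply] at h1
      have hz : ∀ k, k ≠ i → k ≠ j → b.coord k x = 0 := by
        have h2 : ∑ k ∈ (Finset.univ.erase i).erase j, b.coord k x = 0 := by
          have e1 := Finset.add_sum_erase Finset.univ (fun k => b.coord k x) (Finset.mem_univ i)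
          have e2 := Finset.add_sum_erase (Finset.univ.erase i) (fun k => b.coord k x)
            (Finset.mem_erase.2 ⟨Ne.symm hij, Finset.mem_univ j⟩)
          linarith
        rw [Finset.sum_eq_zero_iff_of_nonneg (fun k _ => hx k)] at h2
        intro k hk hk'
        exact h2 k (Finset.mem_erase.2 ⟨hk', Finset.mem_erase.2 ⟨hk, Finset.mem_univ _⟩⟩)
      rw [← Finset.sum_subset (Finset.subset_univ {i, j}) (fun k _ hk => by
        simp only [Finset.mem_insert, Finset.mem_singleton, not_or] at hk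
        rw [hz k hk.1 hk.2, zero_smul]), Finset.sum_pair hij] at hx'
      exact ⟨b.coord i x, b.coord j x, hx i, hx j, h1, hx'⟩
  have hf3 : ∀ x ∈ segment ℝ (b i) (b j), f x = 1 := by
    rintro x ⟨α, β, _, _, hab, rfl⟩
    have hi : f (b i) = 1 := by
      by_cases hij : i = j
      · simp [f, hij]
      · simp [f, hij, b.coord_apply, Ne.symm hij]
    have hj : f (b j) = 1 := by
      by_cases hij : i = j
      · simp [f, hij]
      · simp [f, hij, b.coord_apply]
    have := Convex.combo_affine_apply (x := b i) (y := b j) (f := f) hab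
    rw [this, hi, hj]
    simpa using hab
  have hseg : segment ℝ (b i) (b j) ⊆ convexHull ℝ (range b) := by
    rw [← convexHull_pair]
    refine convexHull_mono ?_
    rintro _ (rfl | rfl) <;> exact mem_range_self _
  refine ⟨LinearMap.toContinuousLinearMap f.linear, ?_⟩
  have hlin : ∀ x, f.linear x = f x - f 0 := by
    intro x
    have := f.linearMap_vsub x 0
    simpa using this
  ext x
  simp only [LinearMap.coe_toContinuousLinearMap', hlin, Set.mem_ofPred_eq]
  constructor
  · intro hx
    refine ⟨hseg hx, fun y hy => ?_⟩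
    have h1 := hf3 x hx
    have h2 := hf1 y hy
    linarith
  · rintro ⟨hx, hmax⟩
    refine hf2 x hx (le_antisymm (hf1 x hx) ?_)
    have h1 := hmax (b i) (hseg (left_mem_segment ℝ _ _))
    have h2 := hf3 _ (left_mem_segment ℝ (b i) (b j))
    linarith

lemma vertex_exposed (ht : AffineIndependent ℝ t) (i : Fin (d + 1)) :
    IsExposed ℝ (convexHull ℝ (range t)) {t i} := by
  have := edge_exposed ht i i
  rwa [segment_same] at this

/-- An exposed point of a simplex is a vertex. -/
lemma exposed_vertex {p : Fin d → ℝ} (hp : IsExposed ℝ (convexHull ℝ (range t)) {p}) :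
    ∃ i, t i = p := by
  have h1 : p ∈ (convexHull ℝ (range t)).extremePoints ℝ :=
    isExtreme_singleton.1 hp.isExtreme
  have h2 : p ∈ range t := extremePoints_convexHull_subset h1
  exact h2

end Simplex

/-! ### The polytope -/

section Poly

variable {n : ℕ}

/-- The product of a triangle (in the first and the last coordinate) and a cube. -/
def PP (n : ℕ) : Set (Fin (n + 3) → ℝ) :=
  {x | (∀ j, 0 ≤ x j ∧ x j ≤ 1) ∧ x 0 + x (Fin.last (n + 2)) ≤ 1}

/-- The tower: `FF n i` is the set of points of `PP n` whose coordinates from the `i`-th on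
vanish. -/
def FF (n i : ℕ) : Set (Fin (n + 3) → ℝ) := {x | x ∈ PP n ∧ ∀ j : Fin (n + 3), i ≤ j → x j = 0}

lemma zero_ne_last : (0 : Fin (n + 3)) ≠ Fin.last (n + 2) := by
  intro h
  have := congrArg Fin.val h
  simp at this

lemma one_ne_last : (1 : Fin (n + 3)) ≠ Fin.last (n + 2) := by
  intro h
  have := congrArg Fin.val h
  simp at this

lemma one_ne_zero' : (1 : Fin (n + 3)) ≠ 0 := by
  intro h
  have := congrArg Fin.val h
  simp at this

lemma zero_mem : (0 : Fin (n + 3) → ℝ) ∈ PP n := by
  refine ⟨fun j => ?_, ?_⟩ <;> simp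

lemma convex_PP : Convex ℝ (PP n) := by
  intro x hx y hy a b ha hb hab
  refine ⟨fun j => ?_, ?_⟩
  · have h1 := hx.1 j
    have h2 := hy.1 j
    simp only [Pi.add_apply, Pi.smul_apply, smul_eq_mul]
    constructor
    · nlinarith [mul_nonneg ha h1.1, mul_nonneg hb h2.1]
    · nlinarith [mul_le_mul_of_nonneg_left h1.2 ha, mul_le_mul_of_nonneg_left h2.2 hb]
  · have h1 := hx.2
    have h2 := hy.2
    simp only [Pi.add_apply, Pi.smul_apply, smul_eq_mul]
    nlinarith [mul_le_mul_of_nonneg_left h1 ha, mul_le_mul_of_nonneg_left h2 hb]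

lemma isCompact_PP : IsCompact (PP n) := by
  have h1 : IsCompact (Set.pi univ fun _ : Fin (n + 3) => Icc (0 : ℝ) 1) :=
    isCompact_univ_pi fun _ => isCompact_Icc
  refine h1.of_isClosed_subset ?_ ?_
  · have e : PP n = (⋂ j, {x : Fin (n + 3) → ℝ | 0 ≤ x j ∧ x j ≤ 1}) ∩
        {x | x 0 + x (Fin.last (n + 2)) ≤ 1} := by
      ext x
      simp [PP]
    rw [e]
    refine IsClosed.inter (isClosed_iInter fun j => ?_) ?_
    · exact isClosed_Icc.preimage (continuous_apply j)
    · exact isClosed_le (by fun_prop) (by fun_prop)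
  · intro x hx j _
    exact hx.1 j

/-- If moving from `x` by `v` in both directions stays in `PP n`, then `x` is not extreme unless
`v = 0`. -/
lemma not_extreme {x v : Fin (n + 3) → ℝ} (hx : x ∈ (PP n).extremePoints ℝ)
    (h1 : x + v ∈ PP n) (h2 : x - v ∈ PP n) : v = 0 := by
  have h := hx.2 h1 h2 ⟨1 / 2, 1 / 2, by norm_num, by norm_num, by norm_num, by module⟩
  simpa using h

lemma extreme_zero_one {x : Fin (n + 3) → ℝ} (hx : x ∈ (PP n).extremePoints ℝ) (j : Fin (n + 3)) :
    x j = 0 ∨ x j = 1 := by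
  classical
  by_contra hcon
  push Not at hcon
  have hP := hx.1
  obtain ⟨hb, hs⟩ := hP
  have hj := hb j
  have hj0 : 0 < x j := lt_of_le_of_ne hj.1 (Ne.symm hcon.1)
  have hj1 : x j < 1 := lt_of_le_of_ne hj.2 hcon.2
  by_cases hsum : (j = 0 ∨ j = Fin.last (n + 2)) ∧ x 0 + x (Fin.last (n + 2)) = 1
  · -- move along the hypotenuse
    obtain ⟨hj', hs1⟩ := hsum
    have h0 : 0 < x 0 ∧ 0 < x (Fin.last (n + 2)) := by
      rcases hj' with h | h
      · rw [h] at hj0 hj1
        exact ⟨hj0, by linarith⟩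
      · rw [h] at hj0 hj1
        exact ⟨by linarith, hj0⟩
    set δ := min (x 0) (x (Fin.last (n + 2))) with hδ
    have hδ0 : 0 < δ := lt_min h0.1 h0.2
    have hδ1 : δ ≤ x 0 := min_le_left _ _
    have hδ2 : δ ≤ x (Fin.last (n + 2)) := min_le_right _ _
    set v : Fin (n + 3) → ℝ := fun k => if k = 0 then δ else if k = Fin.last (n + 2) then -δ else 0
      with hv
    have hv0 : v 0 = δ := by simp [hv]
    have hvl : v (Fin.last (n + 2)) = -δ := by
      simp [hv]
    have hvo : ∀ k, k ≠ 0 → k ≠ Fin.last (n + 2) → v k = 0 := by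
      intro k hk hk'
      simp [hv, hk, hk']
    have key : ∀ s : ℝ, (s = 1 ∨ s = -1) → x + s • v ∈ PP n := by
      intro s hs'
      refine ⟨fun k => ?_, ?_⟩
      · simp only [Pi.add_apply, Pi.smul_apply, smul_eq_mul]
        by_cases hk : k = 0
        · subst hk
          rw [hv0]
          rcases hs' with rfl | rfl <;> constructor <;> nlinarith
        · by_cases hk' : k = Fin.last (n + 2)
          · subst hk'
            rw [hvl]
            rcases hs' with rfl | rfl <;> constructor <;> nlinarith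
          · rw [hvo k hk hk']
            simpa using hb k
      · simp only [Pi.add_apply, Pi.smul_apply, smul_eq_mul, hv0, hvl]
        linarith
    have h := not_extreme (v := v) hx (by simpa using key 1 (Or.inl rfl))
      (by have := key (-1) (Or.inr rfl); rwa [neg_one_smul, ← sub_eq_add_neg] at this)
    have : v 0 = 0 := by rw [h]; rfl
    rw [hv0] at this
    exact hδ0.ne' this
  · -- move along the `j`-th coordinate
    obtain ⟨δ, hδ0, hδ1, hδ2, hδ3⟩ : ∃ δ > 0, δ ≤ x j ∧ δ ≤ 1 - x j ∧
        ((j = 0 ∨ j = Fin.last (n + 2)) → δ ≤ 1 - (x 0 + x (Fin.last (n + 2)))) := by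
      by_cases hj' : j = 0 ∨ j = Fin.last (n + 2)
      · have hlt : x 0 + x (Fin.last (n + 2)) < 1 :=
          lt_of_le_of_ne hs fun h => hsum ⟨hj', h⟩
        refine ⟨min (min (x j) (1 - x j)) (1 - (x 0 + x (Fin.last (n + 2)))), ?_, ?_, ?_, fun _ => ?_⟩
        · exact lt_min (lt_min hj0 (by linarith)) (by linarith)
        · exact (min_le_left _ _).trans (min_le_left _ _)
        · exact (min_le_left _ _).trans (min_le_right _ _)
        · exact min_le_right _ _
      · exact ⟨min (x j) (1 - x j), lt_min hj0 (by linarith), min_le_left _ _, min_le_right _ _,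
          fun h => absurd h hj'⟩
    have key : ∀ s : ℝ, (s = 1 ∨ s = -1) → x + s • Pi.single j δ ∈ PP n := by
      intro s hs'
      refine ⟨fun k => ?_, ?_⟩
      · simp only [Pi.add_apply, Pi.smul_apply, smul_eq_mul]
        by_cases hk : k = j
        · subst hk
          rw [Pi.single_eq_same]
          rcases hs' with rfl | rfl <;> constructor <;> linarith
        · rw [Pi.single_eq_of_ne hk]
          simpa using hb k
      · simp only [Pi.add_apply, Pi.smul_apply, smul_eq_mul]
        by_cases h0 : j = 0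
        · have h3 := hδ3 (Or.inl h0)
          subst h0
          rw [Pi.single_eq_same, Pi.single_eq_of_ne (Ne.symm zero_ne_last)]
          rcases hs' with rfl | rfl <;> linarith
        · rw [Pi.single_eq_of_ne (Ne.symm h0)]
          by_cases hl : j = Fin.last (n + 2)
          · have h3 := hδ3 (Or.inr hl)
            subst hl
            rw [Pi.single_eq_same]
            rcases hs' with rfl | rfl <;> linarith
          · rw [Pi.single_eq_of_ne (Ne.symm hl)]
            linarith
    have h := not_extreme (v := Pi.single j δ) hx (by simpa using key 1 (Or.inl rfl))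
      (by have := key (-1) (Or.inr rfl); rwa [neg_one_smul, ← sub_eq_add_neg] at this)
    have : (Pi.single j δ : Fin (n + 3) → ℝ) j = 0 := by rw [h]; rfl
    rw [Pi.single_eq_same] at this
    exact hδ0.ne' this

lemma isPolytope_PP : IsPolytope (PP n) := by
  constructor
  · have hfin : ((PP n).extremePoints ℝ).Finite := by
      have h1 : (Set.pi univ fun _ : Fin (n + 3) => ({0, 1} : Set ℝ)).Finite :=
        Set.Finite.pi fun _ => Set.toFinite _
      refine h1.subset fun x hx j _ => ?_
      exact extreme_zero_one hx j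
    refine ⟨_, hfin, ?_⟩
    have h2 := closure_convexHull_extremePoints (isCompact_PP (n := n)) convex_PP
    have hcl : IsClosed (convexHull ℝ ((PP n).extremePoints ℝ)) :=
      (Set.Finite.isCompact_convexHull ℝ hfin).isClosed
    rw [hcl.closure_eq] at h2
    exact h2.symm
  · refine ⟨fun _ => 1 / 4, ?_⟩
    rw [mem_interior]
    refine ⟨{x | (∀ j, 0 < x j ∧ x j < 1) ∧ x 0 + x (Fin.last (n + 2)) < 1}, ?_, ?_, ?_⟩
    · intro x hx
      exact ⟨fun j => ⟨(hx.1 j).1.le, (hx.1 j).2.le⟩, hx.2.le⟩
    · have e : {x : Fin (n + 3) → ℝ | (∀ j, 0 < x j ∧ x j < 1) ∧ x 0 + x (Fin.last (n + 2)) < 1} =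
          (⋂ j, {x : Fin (n + 3) → ℝ | 0 < x j ∧ x j < 1}) ∩
          {x | x 0 + x (Fin.last (n + 2)) < 1} := by
        ext x
        simp
      rw [e]
      refine IsOpen.inter (isOpen_iInter_of_finite fun j => ?_) ?_
      · exact isOpen_Ioo.preimage (continuous_apply j)
      · exact isOpen_lt (by fun_prop) (by fun_prop)
    · refine ⟨fun j => ?_, ?_⟩ <;> norm_num

lemma FF_zero : FF n 0 = {0} := by
  ext x
  simp only [FF, mem_singleton_iff]
  constructor
  · rintro ⟨_, h⟩
    funext j
    exact h j (Nat.zero_le _)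
  · rintro rfl
    exact ⟨zero_mem, fun j _ => rfl⟩

lemma FF_top : FF n (n + 3) = PP n := by
  ext x
  constructor
  · exact fun h => h.1
  · exact fun h => ⟨h, fun j hj => absurd j.is_lt (by omega)⟩

lemma FF_mono {i k : ℕ} (h : i ≤ k) : FF n i ⊆ FF n k :=
  fun _ hx => ⟨hx.1, fun j hj => hx.2 j (h.trans hj)⟩

lemma single_mem (j : Fin (n + 3)) : (Pi.single j 1 : Fin (n + 3) → ℝ) ∈ PP n := by
  classical
  refine ⟨fun k => ?_, ?_⟩
  · by_cases hk : k = j
    · subst hk
      simp
    · rw [Pi.single_eq_of_ne hk]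
      simp
  · by_cases h0 : j = 0
    · subst h0
      rw [Pi.single_eq_same, Pi.single_eq_of_ne (Ne.symm zero_ne_last)]
      norm_num
    · rw [Pi.single_eq_of_ne (Ne.symm h0)]
      by_cases hl : j = Fin.last (n + 2)
      · subst hl
        rw [Pi.single_eq_same]
        norm_num
      · rw [Pi.single_eq_of_ne (Ne.symm hl)]
        norm_num

lemma FF_exposed (i : ℕ) : IsExposed ℝ (PP n) (FF n i) := by
  classical
  intro _
  let l : (Fin (n + 3) → ℝ) →L[ℝ] ℝ :=
    -∑ j ∈ Finset.univ.filter (fun j : Fin (n + 3) => i ≤ j), ContinuousLinearMap.proj j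
  have hl : ∀ x, l x = -∑ j ∈ Finset.univ.filter (fun j : Fin (n + 3) => i ≤ j), x j := by
    intro x
    simp [l]
  refine ⟨l, ?_⟩
  ext x
  constructor
  · rintro ⟨hx, h0⟩
    refine ⟨hx, fun y hy => ?_⟩
    rw [hl, hl]
    have e1 : ∑ j ∈ Finset.univ.filter (fun j : Fin (n + 3) => i ≤ j), x j = 0 :=
      Finset.sum_eq_zero fun j hj => h0 j (Finset.mem_filter.1 hj).2
    have e2 : 0 ≤ ∑ j ∈ Finset.univ.filter (fun j : Fin (n + 3) => i ≤ j), y j :=
      Finset.sum_nonneg fun j _ => (hy.1 j).1
    linarith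
  · rintro ⟨hx, hmax⟩
    refine ⟨hx, fun j hj => ?_⟩
    have h1 := hmax 0 zero_mem
    rw [hl, hl] at h1
    simp only [Pi.zero_apply, Finset.sum_const_zero, neg_zero] at h1
    have e2 : 0 ≤ ∑ j ∈ Finset.univ.filter (fun j : Fin (n + 3) => i ≤ j), x j :=
      Finset.sum_nonneg fun j _ => (hx.1 j).1
    have e3 : ∑ j ∈ Finset.univ.filter (fun j : Fin (n + 3) => i ≤ j), x j = 0 := by linarith
    rw [Finset.sum_eq_zero_iff_of_nonneg (fun j _ => (hx.1 j).1)] at e3
    exact e3 j (Finset.mem_filter.2 ⟨Finset.mem_univ _, hj⟩)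

lemma FF_dim {i : ℕ} (hi : i ≤ n + 3) : Module.finrank ℝ (vectorSpan ℝ (FF n i)) = i := by
  classical
  let b : Fin i → (Fin (n + 3) → ℝ) := fun k => Pi.single (Fin.castLE hi k) 1
  have hb : LinearIndependent ℝ b := by
    have h1 := (Pi.basisFun ℝ (Fin (n + 3))).linearIndependent
    have h2 := h1.comp (Fin.castLE hi) (Fin.castLE_injective hi)
    convert h2 using 1
    funext k
    simp [b]
  have h0 : (0 : Fin (n + 3) → ℝ) ∈ FF n i := ⟨zero_mem, fun _ _ => rfl⟩
  have hspan : vectorSpan ℝ (FF n i) = Submodule.span ℝ (range b) := by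
    rw [vectorSpan_eq_span_vsub_set_right ℝ h0]
    apply le_antisymm
    · rw [Submodule.span_le]
      rintro _ ⟨x, hx, rfl⟩
      simp only [vsub_eq_sub, sub_zero]
      have e : x = ∑ k : Fin i, x (Fin.castLE hi k) • b k := by
        funext j
        rw [Finset.sum_apply]
        simp only [Pi.smul_apply, smul_eq_mul, b]
        by_cases hj : (j : ℕ) < i
        · rw [Finset.sum_eq_single ⟨j, hj⟩]
          · have : Fin.castLE hi ⟨j, hj⟩ = j := Fin.ext rfl
            rw [this, Pi.single_eq_same, mul_one]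
          · intro k _ hk
            rw [Pi.single_eq_of_ne, mul_zero]
            intro h
            apply hk
            apply Fin.ext
            exact (congrArg Fin.val h).symm
          · intro h
            exact absurd (Finset.mem_univ _) h
        · rw [hx.2 j (by omega), Finset.sum_eq_zero]
          intro k _
          rw [Pi.single_eq_of_ne, mul_zero]
          intro h
          apply hj
          rw [h]
          exact k.is_lt
      rw [e]
      exact Submodule.sum_mem _ fun k _ => Submodule.smul_mem _ _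
        (Submodule.subset_span (mem_range_self k))
    · rw [Submodule.span_le]
      rintro _ ⟨k, rfl⟩
      apply Submodule.subset_span
      refine ⟨b k, ⟨single_mem _, fun j hj => ?_⟩, by simp⟩
      simp only [b]
      rw [Pi.single_eq_of_ne]
      intro h
      have := k.is_lt
      rw [h] at hj
      simp at hj
      omega
  rw [hspan, finrank_span_eq_card hb, Fintype.card_fin]

lemma isTower_FF : IsTower (PP n) (FF n) where
  face i _ := FF_exposed i
  nonempty i _ := ⟨0, zero_mem, fun _ _ => rfl⟩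
  dim i hi := FF_dim hi
  strict i hi := by
    refine ⟨FF_mono (Nat.le_succ i), fun h => ?_⟩
    have h1 : (Pi.single (⟨i, hi⟩ : Fin (n + 3)) 1 : Fin (n + 3) → ℝ) ∈ FF n (i + 1) := by
      refine ⟨single_mem _, fun j hj => Pi.single_eq_of_ne ?_ _⟩
      rintro rfl
      simp at hj
    have h2 := (h h1).2 ⟨i, hi⟩ le_rfl
    rw [Pi.single_eq_same] at h2
    exact one_ne_zero h2
  top := FF_top

/-- The extra vertex. -/
def VV (n : ℕ) : Fin (n + 3) → ℝ := Pi.single (Fin.last (n + 2)) 1 + Pi.single 1 1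

lemma VV_last : VV n (Fin.last (n + 2)) = 1 := by
  simp only [VV, Pi.add_apply, Pi.single_eq_same]
  rw [Pi.single_eq_of_ne (Ne.symm one_ne_last), add_zero]

lemma VV_one : VV n 1 = 1 := by
  simp only [VV, Pi.add_apply, Pi.single_eq_same]
  rw [Pi.single_eq_of_ne one_ne_last, zero_add]

lemma VV_other (j : Fin (n + 3)) (h1 : j ≠ 1) (h2 : j ≠ Fin.last (n + 2)) : VV n j = 0 := by
  simp only [VV, Pi.add_apply]
  rw [Pi.single_eq_of_ne h1, Pi.single_eq_of_ne h2, add_zero]

lemma VV_mem : VV n ∈ PP n := by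
  refine ⟨fun j => ?_, ?_⟩
  · by_cases h1 : j = 1
    · subst h1
      rw [VV_one]
      simp
    · by_cases h2 : j = Fin.last (n + 2)
      · subst h2
        rw [VV_last]
        simp
      · rw [VV_other j h1 h2]
        simp
  · rw [VV_last, VV_other 0 (Ne.symm one_ne_zero') zero_ne_last]
    norm_num

lemma VV_exposed : IsExposed ℝ (PP n) {VV n} := by
  classical
  intro _
  let l : (Fin (n + 3) → ℝ) →L[ℝ] ℝ := ∑ j, (2 * VV n j - 1) • ContinuousLinearMap.proj j
  have hl : ∀ x, l x = ∑ j, (2 * VV n j - 1) * x j := by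
    intro x
    simp [l]
  have hV : ∀ j, VV n j = 0 ∨ VV n j = 1 := by
    intro j
    by_cases h1 : j = 1
    · subst h1
      exact Or.inr VV_one
    · by_cases h2 : j = Fin.last (n + 2)
      · subst h2
        exact Or.inr VV_last
      · exact Or.inl (VV_other j h1 h2)
  have hterm : ∀ x ∈ PP n, ∀ j, (2 * VV n j - 1) * x j ≤ VV n j := by
    intro x hx j
    have := hx.1 j
    rcases hV j with h | h <;> rw [h] <;> linarith
  have hVV : l (VV n) = ∑ j, VV n j := by
    rw [hl]
    refine Finset.sum_congr rfl fun j _ => ?_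
    rcases hV j with h | h <;> rw [h] <;> norm_num
  refine ⟨l, ?_⟩
  ext x
  constructor
  · rintro rfl
    refine ⟨VV_mem, fun y hy => ?_⟩
    rw [hVV, hl]
    exact Finset.sum_le_sum fun j _ => hterm y hy j
  · rintro ⟨hx, hmax⟩
    have h1 := hmax _ VV_mem
    rw [hVV, hl] at h1
    have h2 : ∀ j ∈ Finset.univ, (2 * VV n j - 1) * x j = VV n j := by
      rw [← Finset.sum_eq_sum_iff_of_le (fun j _ => hterm x hx j)]
      exact le_antisymm (Finset.sum_le_sum fun j _ => hterm x hx j) h1
    rw [mem_singleton_iff]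
    funext j
    have h3 := h2 j (Finset.mem_univ j)
    rcases hV j with h | h <;> rw [h] at h3 ⊢ <;> linarith

/-- The vertex through which both paths have to go. -/
def EE (n : ℕ) : Fin (n + 3) → ℝ := Pi.single (Fin.last (n + 2)) 1

lemma EE_ne_VV : EE n ≠ VV n := by
  intro h
  have h1 := congrFun h 1
  rw [VV_one] at h1
  simp only [EE] at h1
  rw [Pi.single_eq_of_ne one_ne_last] at h1
  exact zero_ne_one h1

end Poly

/-! ### The proof -/

section Main

variable {n : ℕ}

lemma EE_mem_PP : EE n ∈ PP n := single_mem _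

lemma EE_last : EE n (Fin.last (n + 2)) = 1 := Pi.single_eq_same _ _

lemma EE_other {j : Fin (n + 3)} (hj : j ≠ Fin.last (n + 2)) : EE n j = 0 :=
  Pi.single_eq_of_ne hj _

/-- A face of `P` containing `w ∈ {0, e₀}` and a point outside the facet `F^(d-1)` contains the
neighbour `EE` of `w`. -/
lemma EE_mem_of_face {G : Set (Fin (n + 3) → ℝ)} (hG : IsExposed ℝ (PP n) G)
    {w z : Fin (n + 3) → ℝ} (hw : w = 0 ∨ w = Pi.single 0 1) (hwG : w ∈ G) (hzG : z ∈ G)
    (hz : z (Fin.last (n + 2)) ≠ 0) : EE n ∈ G := by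
  have hzP := hG.subset hzG
  have hm : (1 / 2 : ℝ) • w + (1 / 2 : ℝ) • z ∈ G :=
    (hG.convex convex_PP) hwG hzG (by norm_num) (by norm_num) (by norm_num)
  set m := (1 / 2 : ℝ) • w + (1 / 2 : ℝ) • z with hmdef
  set ε : ℝ := z (Fin.last (n + 2)) / 2 with hε
  have hzl := hzP.1 (Fin.last (n + 2))
  have hε0 : 0 < ε := by
    have : 0 < z (Fin.last (n + 2)) := lt_of_le_of_ne hzl.1 (Ne.symm hz)
    positivity
  have hε1 : ε ≤ 1 / 2 := by
    rw [hε]
    linarith [hzl.2]
  have hw0 : 0 ≤ w 0 ∧ w 0 ≤ 1 := by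
    rcases hw with h | h <;> rw [h] <;> simp
  have hwj : ∀ j, j ≠ 0 → w j = 0 := by
    intro j hj
    rcases hw with h | h <;> rw [h]
    · rfl
    · exact Pi.single_eq_of_ne hj _
  have hz0 := hzP.1 0
  have hs := hzP.2
  have hzε : z (Fin.last (n + 2)) = 2 * ε := by rw [hε]; ring
  have hq : m + ε • (m - EE n) ∈ PP n := by
    refine ⟨fun j => ?_, ?_⟩
    · simp only [hmdef, Pi.add_apply, Pi.smul_apply, Pi.sub_apply, smul_eq_mul]
      by_cases hj : j = Fin.last (n + 2)
      · subst hj
        rw [EE_last, hwj _ (Ne.symm zero_ne_last), hzε]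
        constructor <;> nlinarith
      · rw [EE_other hj]
        by_cases h0 : j = 0
        · subst h0
          constructor
          · nlinarith [mul_nonneg hε0.le hw0.1, mul_nonneg hε0.le hz0.1]
          · nlinarith [mul_nonneg hε0.le hw0.1, mul_nonneg hε0.le hz0.1]
        · rw [hwj j h0]
          have := hzP.1 j
          constructor
          · nlinarith [mul_nonneg hε0.le this.1]
          · nlinarith [mul_nonneg hε0.le this.1]
    · simp only [hmdef, Pi.add_apply, Pi.smul_apply, Pi.sub_apply, smul_eq_mul]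
      rw [EE_last, EE_other zero_ne_last, hwj _ (Ne.symm zero_ne_last), hzε]
      nlinarith [mul_nonneg hε0.le hw0.1, mul_nonneg hε0.le hz0.1]
  refine hG.isExtreme.left_mem_of_mem_openSegment EE_mem_PP hq hm ?_
  have h1 : (1 + ε) ≠ 0 := by positivity
  refine ⟨ε / (1 + ε), 1 / (1 + ε), by positivity, by positivity, by field_simp; ring, ?_⟩
  have e : (ε / (1 + ε)) • EE n + (1 / (1 + ε)) • (m + ε • (m - EE n)) =
      ((1 / (1 + ε)) * (1 + ε)) • m := by
    module
  rw [e, one_div_mul_cancel h1, one_smul]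

variable {t : Fin (n + 3 + 1) → (Fin (n + 3) → ℝ)}

lemma img_mem {d : ℕ} {P T : Set (Fin d → ℝ)} (ψ : P ≃ₜ T) {F : Set (Fin d → ℝ)} {x : P} :
    (ψ x : Fin d → ℝ) ∈ img ψ F ↔ (x : Fin d → ℝ) ∈ F := by
  constructor
  · rintro ⟨y, hy, he⟩
    have : y = x := ψ.injective (Subtype.ext he)
    rwa [← this]
  · intro h
    exact ⟨x, h, rfl⟩

/-- The preimage of the edge from `ψ w` to `ψ V` contains `EE`. -/
lemma key (ht : AffineIndependent ℝ t) (ψ : PP n ≃ₜ convexHull ℝ (range t))
    (href : IsRefinementMap ψ) (hfac : IsExposed ℝ (convexHull ℝ (range t)) (img ψ (FF n (n + 2))))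
    {w : PP n} (hw : (w : Fin (n + 3) → ℝ) = 0 ∨ (w : Fin (n + 3) → ℝ) = Pi.single 0 1)
    {i j : Fin (n + 3 + 1)} (hi : t i = ψ w) (hj : t j = ψ ⟨VV n, VV_mem⟩) :
    (ψ ⟨EE n, EE_mem_PP⟩ : Fin (n + 3) → ℝ) ∈ segment ℝ (t i) (t j) := by
  obtain ⟨𝓕, h𝓕, he⟩ := href _ (edge_exposed ht i j)
  have hsegT : segment ℝ (t i) (t j) ⊆ convexHull ℝ (range t) := (edge_exposed ht i j).subset
  -- the preimage of the edge is connected
  have hconn : IsPreconnected {x : PP n | (ψ x : Fin (n + 3) → ℝ) ∈ segment ℝ (t i) (t j)} := by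
    have h1 : IsPreconnected {y : convexHull ℝ (range t) |
        (y : Fin (n + 3) → ℝ) ∈ segment ℝ (t i) (t j)} := by
      rw [← Topology.IsInducing.subtypeVal.isPreconnected_image]
      have : (Subtype.val '' {y : convexHull ℝ (range t) |
          (y : Fin (n + 3) → ℝ) ∈ segment ℝ (t i) (t j)}) = segment ℝ (t i) (t j) := by
        ext y
        constructor
        · rintro ⟨y, hy, rfl⟩
          exact hy
        · intro hy
          exact ⟨⟨y, hsegT hy⟩, hy, rfl⟩
      rw [this]
      exact (convex_segment _ _).isPreconnected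
    exact ψ.isPreconnected_preimage.2 h1
  have hmemA : ∀ x : PP n, (ψ x : Fin (n + 3) → ℝ) ∈ segment ℝ (t i) (t j) ↔
      (x : Fin (n + 3) → ℝ) ∈ ⋃₀ 𝓕 := fun x => by
    have : x ∈ {x : PP n | (ψ x : Fin (n + 3) → ℝ) ∈ segment ℝ (t i) (t j)} ↔
        x ∈ {x : PP n | (x : Fin (n + 3) → ℝ) ∈ ⋃₀ 𝓕} := by rw [he]
    exact this
  have hwV : w ≠ ⟨VV n, VV_mem⟩ := by
    intro h
    have h1 := congrFun (congrArg Subtype.val h) (Fin.last (n + 2))
    simp only [VV_last] at h1
    rcases hw with h2 | h2 <;> rw [h2] at h1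
    · exact zero_ne_one h1
    · rw [Pi.single_eq_of_ne (Ne.symm zero_ne_last)] at h1
      exact zero_ne_one h1
  obtain ⟨z, hzA, hzU, hzw⟩ := hconn (Subtype.val ⁻¹' Metric.ball (w : Fin (n + 3) → ℝ) (1 / 4))
    {w}ᶜ (Metric.isOpen_ball.preimage continuous_subtype_val) isOpen_compl_singleton
    (by
      intro x _
      by_cases hx : x = w
      · left
        rw [hx]
        exact Metric.mem_ball_self (by norm_num)
      · right
        exact hx)
    ⟨w, by
      change (ψ w : Fin (n + 3) → ℝ) ∈ segment ℝ (t i) (t j)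
      rw [← hi]
      exact left_mem_segment ℝ _ _, Metric.mem_ball_self (by norm_num)⟩
    ⟨⟨VV n, VV_mem⟩, by
      change (ψ ⟨VV n, VV_mem⟩ : Fin (n + 3) → ℝ) ∈ segment ℝ (t i) (t j)
      rw [← hj]
      exact right_mem_segment ℝ _ _, fun h => hwV h.symm⟩
  have hzA' : (ψ z : Fin (n + 3) → ℝ) ∈ segment ℝ (t i) (t j) := hzA
  have hzw' : z ≠ w := hzw
  obtain ⟨G, hG, hzG⟩ := (hmemA z).1 hzA'
  have hGe : IsExposed ℝ (PP n) G := h𝓕 G hG
  -- the face `G` contains `w`
  have hclose : ∀ k, |(z : Fin (n + 3) → ℝ) k - (w : Fin (n + 3) → ℝ) k| < 1 / 4 := by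
    intro k
    rw [← Real.dist_eq]
    exact (dist_le_pi_dist _ _ k).trans_lt hzU
  have h2z : (2 : ℝ) • (z : Fin (n + 3) → ℝ) - (w : Fin (n + 3) → ℝ) ∈ PP n := by
    have hzP := z.2
    refine ⟨fun k => ?_, ?_⟩
    · simp only [Pi.sub_apply, Pi.smul_apply, smul_eq_mul]
      have h1 := hclose k
      rw [abs_lt] at h1
      have h2 := hzP.1 k
      have h3 : (w : Fin (n + 3) → ℝ) k = 0 ∨ (w : Fin (n + 3) → ℝ) k = 1 := by
        rcases hw with h | h <;> rw [h]
        · left; rfl
        · by_cases hk : k = 0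
          · right
            rw [hk, Pi.single_eq_same]
          · left
            exact Pi.single_eq_of_ne hk _
      rcases h3 with h | h <;> rw [h] at h1 ⊢ <;> constructor <;> linarith
    · simp only [Pi.sub_apply, Pi.smul_apply, smul_eq_mul]
      have h1 := hclose 0
      have h2 := hclose (Fin.last (n + 2))
      rw [abs_lt] at h1 h2
      have h3 := hzP.2
      have h4 : (w : Fin (n + 3) → ℝ) (Fin.last (n + 2)) = 0 := by
        rcases hw with h | h <;> rw [h]
        · rfl
        · exact Pi.single_eq_of_ne (Ne.symm zero_ne_last) _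
      rcases hw with h | h <;> rw [h4] at h2 ⊢ <;> rw [h] at h1 ⊢
      · simp only [Pi.zero_apply] at h1 ⊢
        linarith
      · rw [Pi.single_eq_same] at h1 ⊢
        linarith
  have hwG : (w : Fin (n + 3) → ℝ) ∈ G := by
    refine hGe.isExtreme.left_mem_of_mem_openSegment w.2 h2z hzG ?_
    exact ⟨1 / 2, 1 / 2, by norm_num, by norm_num, by norm_num, by module⟩
  by_cases hzl : (z : Fin (n + 3) → ℝ) (Fin.last (n + 2)) = 0
  · -- impossible: the edge meets the facet only in `ψ w`
    exfalso
    have hzF : (z : Fin (n + 3) → ℝ) ∈ FF n (n + 2) := by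
      refine ⟨z.2, fun k hk => ?_⟩
      have : k = Fin.last (n + 2) := by
        apply Fin.ext
        have := k.is_lt
        simp only [Fin.val_last]
        omega
      rw [this, hzl]
    have hzK := (img_mem ψ (F := FF n (n + 2)) (x := z)).2 hzF
    have hVF : VV n ∉ FF n (n + 2) := by
      intro h
      have := h.2 (Fin.last (n + 2)) (by simp)
      rw [VV_last] at this
      exact one_ne_zero this
    rw [← insert_endpoints_openSegment] at hzA'
    rcases hzA' with h | h | h
    · rw [hi] at h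
      exact hzw' (ψ.injective (Subtype.ext h))
    · rw [hj] at h
      have h1 : z = ⟨VV n, VV_mem⟩ := ψ.injective (Subtype.ext h)
      rw [h1] at hzl
      simp only [VV_last] at hzl
      exact one_ne_zero hzl
    · have h1 := hfac.isExtreme.right_mem_of_mem_openSegment
        (hsegT (left_mem_segment ℝ _ _)) (hsegT (right_mem_segment ℝ _ _)) hzK h
      rw [hj] at h1
      exact hVF ((img_mem ψ).1 h1)
  · exact (hmemA _).2 ⟨G, hG, EE_mem_of_face hGe hw hwG hzG hzl⟩

end Main

/-- For every `d ≥ 3` there are a `d`-polytope `P`, a tower `F` of faces of `P` and a vertex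
`V ∉ F^(d-1)` of `P` such that no refinement map of `P` onto a `d`-simplex `T` (piecewise affine or
not) maps all of `V`, `F^0`, `F^1` and `F^(d-1)` onto faces of `T`. -/
theorem result (d : ℕ) (hd : 3 ≤ d) :
    ∃ (P : Set (Fin d → ℝ)) (F : ℕ → Set (Fin d → ℝ)) (V : Fin d → ℝ),
      IsPolytope P ∧ IsTower P F ∧ IsFace P {V} ∧ V ∉ F (d - 1) ∧
      ∀ T : Set (Fin d → ℝ), IsSimplex T → ∀ ψ : P ≃ₜ T, IsRefinementMap ψ →
        ¬ (IsFace T (img ψ {V}) ∧ IsFace T (img ψ (F 0)) ∧ IsFace T (img ψ (F 1)) ∧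
          IsFace T (img ψ (F (d - 1)))) := by
  obtain ⟨n, rfl⟩ : ∃ n, d = n + 3 := ⟨d - 3, by omega⟩
  have hVF : VV n ∉ FF n (n + 2) := by
    intro h
    have := h.2 (Fin.last (n + 2)) (by simp)
    rw [VV_last] at this
    exact one_ne_zero this
  refine ⟨PP n, FF n, VV n, isPolytope_PP, isTower_FF, VV_exposed, hVF, ?_⟩
  rintro T ⟨t, ht, rfl⟩ ψ href ⟨hV, h0, h1, hfac⟩
  have hd1 : n + 3 - 1 = n + 2 := rfl
  rw [hd1] at hfac
  -- the points
  set o : PP n := ⟨0, zero_mem⟩ with ho
  set v : PP n := ⟨VV n, VV_mem⟩ with hv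
  set e0 : PP n := ⟨Pi.single 0 1, single_mem 0⟩ with he0
  have hoe : o ≠ e0 := by
    intro h
    have := congrFun (congrArg Subtype.val h) 0
    simp [ho, he0] at this
  -- `ψ o` and `ψ v` are vertices
  have him0 : img ψ (FF n 0) = {(ψ o : Fin (n + 3) → ℝ)} := by
    rw [FF_zero]
    ext y
    constructor
    · rintro ⟨x, hx, rfl⟩
      have : x = o := Subtype.ext hx
      rw [this]
      rfl
    · rintro rfl
      exact ⟨o, rfl, rfl⟩
  have himV : img ψ {VV n} = {(ψ v : Fin (n + 3) → ℝ)} := by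
    ext y
    constructor
    · rintro ⟨x, hx, rfl⟩
      have : x = v := Subtype.ext hx
      rw [this]
      rfl
    · rintro rfl
      exact ⟨v, rfl, rfl⟩
  rw [him0] at h0
  rw [himV] at hV
  obtain ⟨i, hi⟩ := exposed_vertex h0
  obtain ⟨j, hj⟩ := exposed_vertex hV
  -- `ψ e0` is a vertex
  have hF1 : ∀ x ∈ FF n 1, ∃ c : ℝ, 0 ≤ c ∧ c ≤ 1 ∧ x = c • (Pi.single 0 1 : Fin (n + 3) → ℝ) := by
    intro x hx
    refine ⟨x 0, (hx.1.1 0).1, (hx.1.1 0).2, ?_⟩
    funext k
    by_cases hk : k = 0
    · subst hk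
      simp
    · rw [Pi.smul_apply, Pi.single_eq_of_ne hk, smul_zero]
      refine hx.2 k ?_
      have : (k : ℕ) ≠ 0 := fun h => hk (Fin.ext h)
      omega
  have he0F : (e0 : Fin (n + 3) → ℝ) ∈ FF n 1 := by
    refine ⟨single_mem 0, fun k hk => Pi.single_eq_of_ne ?_ _⟩
    rintro rfl
    simp at hk
  obtain ⟨k, hk⟩ : ∃ k, t k = (ψ e0 : Fin (n + 3) → ℝ) := by
    have hTc : IsCompact (convexHull ℝ (range t)) := (Set.finite_range t).isCompact_convexHull ℝ
    have hK : IsCompact (img ψ (FF n 1)) := h1.isCompact hTc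
    have hKc : Convex ℝ (img ψ (FF n 1)) := h1.convex (convex_convexHull ℝ _)
    -- an extreme point different from `ψ o`
    obtain ⟨p, hp, hpo⟩ : ∃ p ∈ (img ψ (FF n 1)).extremePoints ℝ, p ≠ ψ o := by
      by_contra hcon
      push Not at hcon
      have h2 := closure_convexHull_extremePoints hK hKc
      have h3 : (img ψ (FF n 1)).extremePoints ℝ ⊆ {(ψ o : Fin (n + 3) → ℝ)} := fun p hp => hcon p hp
      have h4 : img ψ (FF n 1) ⊆ {(ψ o : Fin (n + 3) → ℝ)} := by
        rw [← h2]
        refine closure_minimal ?_ isClosed_singleton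
        exact convexHull_min h3 (convex_singleton _)
      have h5 := h4 ((img_mem ψ).2 he0F)
      exact hoe (ψ.injective (Subtype.ext h5)).symm
    have hpT : p ∈ (convexHull ℝ (range t)).extremePoints ℝ := h1.isExtreme.extremePoints_subset_extremePoints hp
    have hpt : p ∈ range t := extremePoints_convexHull_subset hpT
    obtain ⟨k, hk⟩ := hpt
    obtain ⟨𝓕, h𝓕, he⟩ := href _ (vertex_exposed ht k)
    obtain ⟨x, hxF, hxp⟩ := hp.1
    -- `x` is a vertex of `P`
    have hx1 : x ∈ {x : PP n | (ψ x : Fin (n + 3) → ℝ) ∈ ({t k} : Set (Fin (n + 3) → ℝ))} := by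
      change (ψ x : Fin (n + 3) → ℝ) ∈ ({t k} : Set (Fin (n + 3) → ℝ))
      rw [hxp, hk]
      rfl
    rw [he] at hx1
    obtain ⟨G, hG, hxG⟩ := hx1
    have hGe : IsExposed ℝ (PP n) G := h𝓕 G hG
    have hGx : G = {(x : Fin (n + 3) → ℝ)} := by
      apply Subset.antisymm
      · intro y hy
        have hyP := hGe.subset hy
        have hy1 : (⟨y, hyP⟩ : PP n) ∈ {x : PP n | (x : Fin (n + 3) → ℝ) ∈ ⋃₀ 𝓕} := ⟨G, hG, hy⟩
        rw [← he] at hy1
        have hy2 : (ψ ⟨y, hyP⟩ : Fin (n + 3) → ℝ) = t k := hy1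
        rw [hk, ← hxp] at hy2
        have := ψ.injective (Subtype.ext hy2)
        rw [← this]
        rfl
      · rintro _ rfl
        exact hxG
    rw [hGx] at hGe
    have hxe : (x : Fin (n + 3) → ℝ) ∈ (PP n).extremePoints ℝ := isExtreme_singleton.1 hGe.isExtreme
    obtain ⟨c, hc0, hc1, hxc⟩ := hF1 _ hxF
    have hxo : x ≠ o := by
      rintro rfl
      exact hpo hxp.symm
    have hc0' : c ≠ 0 := by
      rintro rfl
      apply hxo
      apply Subtype.ext
      rw [hxc, zero_smul]
    have hc1' : c = 1 := by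
      have h01 := extreme_zero_one hxe 0
      rw [hxc] at h01
      simp only [Pi.smul_apply, Pi.single_eq_same, smul_eq_mul, mul_one] at h01
      rcases h01 with h | h
      · exact absurd h hc0'
      · exact h
    refine ⟨k, ?_⟩
    rw [hk, ← hxp]
    congr 2
    apply Subtype.ext
    rw [hxc, hc1', one_smul]
  -- both edges contain `ψ EE`
  have k1 := key ht ψ href hfac (w := o) (Or.inl rfl) hi hj
  have k2 := key ht ψ href hfac (w := e0) (Or.inr rfl) hk hj
  have hne : (ψ ⟨EE n, EE_mem_PP⟩ : Fin (n + 3) → ℝ) ≠ t j := by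
    rw [hj]
    intro h
    have := congrArg Subtype.val (ψ.injective (Subtype.ext h))
    exact EE_ne_VV this
  have hext := (edge_exposed ht k j).isExtreme
  have hsub := (edge_exposed ht i j).subset
  have hti : t i ∈ segment ℝ (t k) (t j) := by
    rw [← insert_endpoints_openSegment] at k1
    rcases k1 with h | h | h
    · rw [← h]
      exact k2
    · exact absurd h hne
    · exact hext.left_mem_of_mem_openSegment (hsub (left_mem_segment ℝ _ _))
        (hsub (right_mem_segment ℝ _ _)) k2 h
  have htie : t i ∈ (convexHull ℝ (range t)).extremePoints ℝ :=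
    isExtreme_singleton.1 (vertex_exposed ht i).isExtreme
  rw [← insert_endpoints_openSegment] at hti
  have hov : o ≠ v := by
    intro h
    have := congrFun (congrArg Subtype.val h) (Fin.last (n + 2))
    simp only [ho, hv, VV_last] at this
    exact zero_ne_one this
  have hkT : t k ∈ convexHull ℝ (range t) := subset_convexHull ℝ _ (mem_range_self k)
  have hjT : t j ∈ convexHull ℝ (range t) := subset_convexHull ℝ _ (mem_range_self j)
  have hik : t i ≠ t k := by
    rw [hi, hk]
    intro h
    exact hoe (ψ.injective (Subtype.ext h))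
  rcases hti with h | h | h
  · exact hik h
  · rw [hi, hj] at h
    exact hov (ψ.injective (Subtype.ext h))
  · exact hik (htie.2 hkT hjT h).symm

end Pool.Agent.Results.MP_82a66d_co.TowerVertex
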